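import Pool.Agent.Lib.MP_7b7e48_nt.OA.AFIN

/-!
# Goldbach's problem for integers with an odd number of prime factors, in residue classes: every large `N`

`Ω` is the number of prime factors, counted with multiplicity; `i, j` are in `{0, 1}`. Let `q ≥ 1` and `ε > 0`. For all large `N`
(even or odd) and all residue classes `a`, `b` modulo `q` which are coprime to `q` and satisfy `a + b ≡ N`, the number of
`0 < n < N`, `n ≠ N - n`, `n ≡ a` (so `N - n ≡ b`) with `Ω n ≡ i` and `Ω (N - n) ≡ j` modulo `2` is at least `N ^ (1 - ε)`.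
-/

open Pool.Agent.Lib.OA

namespace Pool.Agent.Results.MP_61161c_nt.ClassLiouvilleGoldbach

/-- the `0 < n < N` with `n ≠ N - n` and `n ≡ a` modulo `q` such that the numbers of prime factors of `n` and of `N - n`
(with multiplicity) are congruent to `i` and to `j` modulo `2` -/
def reps (q N a i j : ℕ) : Finset ℕ :=
  (Finset.Ioo 0 N).filter fun n => n ≠ N - n ∧ n % q = a % q ∧
    ArithmeticFunction.cardFactors n % 2 = i ∧ ArithmeticFunction.cardFactors (N - n) % 2 = j

theorem result : ∀ q : ℕ, 1 ≤ q → ∀ ε : ℝ, 0 < ε → ∃ N₀ : ℕ, ∀ N : ℕ, N₀ ≤ N → ∀ a b : ℕ, a.Coprime q → b.Coprime q →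
    a + b ≡ N [MOD q] → ∀ i j : ℕ, i < 2 → j < 2 → (N : ℝ) ^ (1 - ε) ≤ ((reps q N a i j).card : ℝ) :=
  afin_cls

end Pool.Agent.Results.MP_61161c_nt.ClassLiouvilleGoldbach
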