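import Pool.Agent.Lib.MP_7b7e48_nt.PX.FIN3
import Pool.Agent.Lib.MP_7b7e48_nt.PX.FIN2

/-!
# MP_61161c: multiples `K N`, `K` at most a power of `log N`, of EVERY large integer `N` as sums of a prime and an almost
prime of prescribed parity

Unconditional, for every large `N`. The parity of the number of prime factors of the almost prime is prescribed.
-/

namespace Pool.Agent.Results.MP_61161c_nt.LogMultiples

open ArithmeticFunction (cardFactors)

/-- the primes `p > N` of the representations `K N = p + b` with `b > N`, where `b` has at most `C` prime factors (counted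
with multiplicity), each of them larger than `(log N) ^ A`, and their number has the parity of `i` -/
def reps (A C N i K : ℕ) : Set ℕ := {p | p.Prime ∧ N < p ∧ ∃ b : ℕ, N < b ∧ p + b = K * N ∧
  cardFactors b ≤ C ∧ cardFactors b % 2 = i % 2 ∧ ∀ q : ℕ, q.Prime → q ∣ b → Real.log N ^ A < q}

private theorem good_mono {A C C' N i K p : ℕ} (hC : C ≤ C') (h : Pool.Agent.Lib.PL.GoodL A C N i K p) :
    p ∈ reps A C' N i K := by
  obtain ⟨h1, h2, b, h3, h4, h5, h6⟩ := h
  exact ⟨h1, h2, b, h3, h4, h5.trans hC, h6⟩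

private theorem reps_fin (A C N i K : ℕ) : (reps A C N i K).Finite :=
  (Set.finite_lt_nat (K * N)).subset fun p hp => by
    obtain ⟨h1, h2, b, h3, h4, h5⟩ := hp
    show p < K * N
    omega

private theorem card_le {A C C' N i K : ℕ} (hC : C ≤ C') (P : ℕ → Prop) [DecidablePred P]
    (hP : ∀ p, P p → Pool.Agent.Lib.PL.GoodL A C N i K p) :
    ((Finset.range (K * N)).filter P).card ≤ (reps A C' N i K).ncard := by
  rw [← Set.ncard_coe_finset]
  refine Set.ncard_le_ncard (fun p hp => ?_) (reps_fin A C' N i K)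
  rw [Finset.mem_coe, Finset.mem_filter] at hp
  exact good_mono hC (hP p hp.2)

theorem result : ∃ m : ℕ → ℕ, (∀ B : ℕ, ∃ X₀ : ℕ, ∀ X : ℕ, X₀ ≤ X → Real.log X ^ B < m X) ∧
    ∀ (A : ℕ) (ε : ℝ), 0 < ε → ∃ (c : ℝ) (C N₀ : ℕ), 0 < c ∧ ∀ N : ℕ, N₀ ≤ N → ∀ i : ℕ,
      (∀ H : ℕ, Real.log N ^ C ≤ H → H ≤ N →
        H / Real.log N ^ C ≤ ({K : ℕ | 0 < K ∧ K ≤ H ∧
          (N : ℝ) ^ (1 - ε) ≤ ((reps A C N i K).ncard : ℝ)}.ncard : ℝ)) ∧
      (∀ X : ℕ, X ≤ N → N ≤ X ^ 2 → ¬ m X ∣ N →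
        Real.log N ^ A ≤ ({K : ℕ | 0 < K ∧ (K : ℝ) ≤ Real.log N ^ C ∧
          N ≤ (reps A C N i K).ncard}.ncard : ℝ) ∧
        c * (N * Real.log N ^ C / Real.log N) ≤ ({p : ℕ | (p : ℝ) ≤ N * Real.log N ^ C ∧
          ∃ K : ℕ, 0 < K ∧ (K : ℝ) ≤ Real.log N ^ C ∧ p ∈ reps A C N i K}.ncard : ℝ)) := by
  classical
  obtain ⟨m, hm, h⟩ := Pool.Agent.Lib.PX.FIN2
  refine ⟨m, hm, fun A ε hε => ?_⟩
  obtain ⟨C0, c, hc, h⟩ := h A
  obtain ⟨C1, N1, g⟩ := Pool.Agent.Lib.PX.FIN3 A ε hε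
  obtain ⟨C, hCdef⟩ : ∃ C : ℕ, C = C0 + A + C1 := ⟨_, rfl⟩
  obtain ⟨X0, h⟩ := h C (by omega)
  refine ⟨c, C, N1 + X0 ^ 2 + 3, hc, fun N hN i => ?_⟩
  have hl : 1 ≤ Real.log N := by
    rw [Real.le_log_iff_exp_le (by exact_mod_cast (by omega : 0 < N))]
    have : ((3 : ℕ) : ℝ) ≤ N := by exact_mod_cast (by omega : 3 ≤ N)
    have h3 := Real.exp_one_lt_d9
    push_cast at this
    linarith
  constructor
  · intro H h1 h2
    have hle : Real.log N ^ C1 ≤ Real.log N ^ C := pow_le_pow_right₀ hl (by omega)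
    refine le_trans ?_ ((g N (by omega) H (hle.trans h1) h2 i).trans ?_)
    · exact div_le_div_of_nonneg_left (Nat.cast_nonneg H) (by positivity) hle
    · rw [← Set.ncard_coe_finset]
      refine Nat.cast_le.mpr (Set.ncard_le_ncard (fun K hK => ?_) ?_)
      · rw [Finset.mem_coe, Finset.mem_filter, Finset.mem_Icc] at hK
        exact ⟨hK.1.1, hK.1.2, hK.2.trans (Nat.cast_le.mpr (card_le (by omega) _ fun p hp => hp))⟩
      · exact (Set.finite_le_nat H).subset fun K hK => hK.2.1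
  · intro X h1 h2 h3
    have hX : X0 ≤ X := by
      by_contra hlt
      push Not at hlt
      have : X ^ 2 ≤ X0 ^ 2 := Nat.pow_le_pow_left hlt.le 2
      omega
    obtain ⟨h4, h5⟩ := h X hX N h1 h2 h3 i
    have hfin : {K : ℕ | (K : ℝ) ≤ Real.log N ^ C}.Finite :=
      (Set.finite_le_nat ⌊Real.log N ^ C⌋₊).subset fun K hK => Nat.le_floor hK
    have hfinp : {p : ℕ | (p : ℝ) ≤ N * Real.log N ^ C}.Finite :=
      (Set.finite_le_nat ⌊(N : ℝ) * Real.log N ^ C⌋₊).subset fun K hK => Nat.le_floor hK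
    constructor
    · refine le_trans (pow_le_pow_right₀ hl (by omega)) (h4.trans ?_)
      rw [← Set.ncard_coe_finset]
      refine Nat.cast_le.mpr (Set.ncard_le_ncard (fun K hK => ?_) (hfin.subset fun K hK => hK.2.1))
      rw [Finset.mem_coe, Finset.mem_filter, Finset.mem_Icc] at hK
      exact ⟨hK.1.1, (Nat.le_floor_iff' (by have := hK.1.1; omega)).mp hK.1.2,
        hK.2.trans (card_le (by omega) _ fun p hp => hp)⟩
    · refine h5.trans ?_
      rw [← Set.ncard_coe_finset]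
      refine Nat.cast_le.mpr (Set.ncard_le_ncard (fun p hp => ?_) (hfinp.subset fun p hp => hp.1))
      rw [Finset.mem_coe, Finset.mem_filter, Finset.mem_Icc] at hp
      obtain ⟨hp, K, hk1, hk2, hg⟩ := hp
      exact ⟨(Nat.le_floor_iff' (by have := hp.1; omega)).mp hp.2, K, hk1, hk2, good_mono (by omega) hg⟩

end Pool.Agent.Results.MP_61161c_nt.LogMultiples
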