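import Pool.Agent.Lib.MP_7b7e48_nt.LX.RelLow2
import Pool.Agent.Lib.MP_7b7e48_nt.LX.RelUp
import Pool.Agent.Lib.SH.T14

/-!
# Even numbers as sums of two distinct primes, one of them from a given set: the exact minimum

Let `A` be a set of primes of lower relative density at least `α`. Then the lower density of the
`n` such that `2 n = a + p` with `a ∈ A` and a prime `p ≠ a` (so both are odd) is at least `g α`,
and this is the best possible bound for every `α` in `[0,1]`. The function `g` is given by a simple recursion over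
the odd primes; `g 1 = 1`, `g (1/2) = 2/3`, `g (1/8) = 8/15`, `g (1/48) = 16/35`, and in general
`g (1/φ(m)) = φ(m)/m` if `m` is the product of the odd primes below a bound.

The lower bound for a fixed `α` stays true, with the right order of magnitude for the number of
representations, if `p` is taken from an ARBITRARY set `P` which meets all but a small proportion of
the windows `(x, x + κ log X]` with at least `m` primes.

The bound holds, and is sharp up to a factor `1 + o(1)`, uniformly for all densities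
`(log X) ^ (-K) ≤ α ≤ 1`; and `g α ~ 2 e ^ (-γ) / log log (1/α)` as `α → 0`.
-/

open Filter Topology

namespace Pool.Agent.Results.MP_61161c_nt.OneDenseSummand

/-- The number of elements of `B` in `[1,x]`. -/
noncomputable def cnt (B : Set ℕ) (x : ℕ) : ℝ := (B ∩ Set.Icc 1 x).ncard

/-- The `n` such that `2 n` is the sum of an element of `A` and a different prime. -/
def sums (A : Set ℕ) : Set ℕ := {n | ∃ a ∈ A, ∃ p : ℕ, p.Prime ∧ a ≠ p ∧ a + p = 2 * n}

open Classical in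
/-- The number of `x ≤ Y` such that `(x, x + H]` contains at least `m` primes, but no prime of `P`. -/
noncomputable def missed (m H Y : ℕ) (P : Set ℕ) : ℕ :=
  ((Finset.Icc 1 Y).filter (fun x => m ≤ ((Finset.Ioc x (x + H)).filter Nat.Prime).card ∧
    ∀ p ∈ Finset.Ioc x (x + H), p.Prime → p ∉ P)).card

/-- The function `g` for a finite list of primes. -/
noncomputable def G : List ℕ → ℝ → ℝ
  | [], x => if x ≤ 0 then 0 else 1
  | p :: L, x =>
      if ((p : ℝ) - 1) * x ≤ 1 then ((p : ℝ) - 1) / p * G L (((p : ℝ) - 1) * x)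
      else (((p : ℝ) - 1) + G L ((((p : ℝ) - 1) * x - 1) / ((p : ℝ) - 2))) / p

/-- The increasing list of the odd primes below `n`. -/
def oddPrimes (n : ℕ) : List ℕ := (List.range n).filter fun p => p.Prime ∧ p ≠ 2

/-- The function `g`: the limit (the infimum) over `n` of `G (oddPrimes n)`. -/
noncomputable def g (α : ℝ) : ℝ := ⨅ n : ℕ, G (oddPrimes n) α

open Pool.Agent.Lib.MP_7b7e48_nt Pool.Agent.Lib.MP_7b7e48_nt.SP Pool.Agent.Lib.MP_7b7e48_nt.LX

theorem G_eq : ∀ (L : List ℕ), G L = lexG L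
  | [] => rfl
  | p :: L => by
    funext x
    have ih := G_eq L
    show (if _ then _ else _) = (if _ then _ else _)
    rw [ih]

theorem g_eq : g = gfun := by
  funext α
  show (⨅ n : ℕ, G (oddPrimes n) α) = ⨅ n : ℕ, lexG (ol n) α
  exact iInf_congr fun n => by rw [G_eq]; rfl

theorem cnt_eq (B : Set ℕ) [DecidablePred (· ∈ B)] (x : ℕ) :
    cnt B x = (((Finset.Icc 1 x).filter (· ∈ B)).card : ℝ) := by
  unfold cnt
  rw [← Set.ncard_coe_finset]
  congr 2
  ext n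
  simp only [Set.mem_inter_iff, Set.mem_Icc, Finset.coe_filter, Finset.mem_Icc, Set.mem_ofPred_eq]
  tauto

theorem cnt_nonneg (B : Set ℕ) (x : ℕ) : 0 ≤ cnt B x := Nat.cast_nonneg _

theorem cnt_le (B : Set ℕ) (x : ℕ) : cnt B x ≤ x := by
  classical
  rw [cnt_eq]
  have := Finset.card_filter_le (Finset.Icc 1 x) (· ∈ B)
  rw [Nat.card_Icc, Nat.add_sub_cancel] at this
  exact_mod_cast this

theorem cnt_prime {A : Set ℕ} (hA : ∀ a ∈ A, a.Prime) [DecidablePred (· ∈ A)] (x : ℕ) :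
    cnt A x = (((Finset.range (x + 1)).filter (· ∈ A)).card : ℝ) := by
  rw [cnt_eq]
  congr 2
  ext n
  rw [Finset.mem_filter, Finset.mem_filter, Finset.mem_Icc, Finset.mem_range]
  constructor
  · rintro ⟨h1, h2⟩
    exact ⟨by omega, h2⟩
  · rintro ⟨h1, h2⟩
    exact ⟨⟨(hA n h2).one_le, by omega⟩, h2⟩

theorem cnt_le_pi {A : Set ℕ} (hA : ∀ a ∈ A, a.Prime) (x : ℕ) :
    cnt A x ≤ (Nat.primeCounting x : ℝ) := by
  classical
  rw [cnt_prime hA, Nat.primeCounting, Nat.primeCounting', Nat.count_eq_card_filter_range]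
  exact_mod_cast Finset.card_le_card fun p hp => by
    rw [Finset.mem_filter] at hp ⊢
    exact ⟨hp.1, hA p hp.2⟩

theorem rel_bdd {A : Set ℕ} (hA : ∀ a ∈ A, a.Prime) (x : ℕ) :
    0 ≤ cnt A x / (Nat.primeCounting x : ℝ) ∧ cnt A x / (Nat.primeCounting x : ℝ) ≤ 1 :=
  ⟨div_nonneg (cnt_nonneg _ _) (Nat.cast_nonneg _),
    div_le_one_of_le₀ (cnt_le_pi hA x) (Nat.cast_nonneg _)⟩

theorem sum_bdd (B : Set ℕ) (x : ℕ) : 0 ≤ cnt B x / x ∧ cnt B x / x ≤ 1 :=
  ⟨div_nonneg (cnt_nonneg _ _) (Nat.cast_nonneg _),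
    div_le_one_of_le₀ (cnt_le B x) (Nat.cast_nonneg _)⟩

theorem isBounded_ge {u : ℕ → ℝ} (h : ∀ x, 0 ≤ u x) : IsBoundedUnder (· ≥ ·) atTop u :=
  isBoundedUnder_of ⟨0, h⟩

theorem isCobounded_ge {u : ℕ → ℝ} (h : ∀ x, u x ≤ 1) : IsCoboundedUnder (· ≥ ·) atTop u :=
  (isBoundedUnder_of ⟨1, h⟩ : IsBoundedUnder (· ≤ ·) atTop u).isCoboundedUnder_ge

/-- the lower bound for a set of primes of given lower relative density -/
theorem lower {α : ℝ} {A : Set ℕ} (hA : ∀ a ∈ A, a.Prime)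
    (hd : α ≤ liminf (fun x : ℕ => cnt A x / (Nat.primeCounting x : ℝ)) atTop)
    {ε : ℝ} (hε : 0 < ε) : ∀ᶠ X : ℕ in atTop, g α - ε ≤ cnt (sums A) X / X := by
  classical
  obtain ⟨X₀, hX₀⟩ := set_lower (α := α) hA (fun ε hε => by
    have h1 := eventually_lt_of_lt_liminf (lt_of_lt_of_le (by linarith : α - ε < α) hd)
      (isBounded_ge fun x => (rel_bdd hA x).1)
    obtain ⟨N, hN⟩ := eventually_atTop.mp h1
    refine ⟨max N 2, fun x hx => ?_⟩
    have h2 := hN x ((le_max_left _ _).trans hx)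
    have h3 : 0 < (Nat.primeCounting x : ℝ) := by
      have : 0 < Nat.primeCounting x := by
        have h4 := Nat.monotone_primeCounting ((le_max_right _ _).trans hx : 2 ≤ x)
        have h5 : Nat.primeCounting 2 = 1 := by decide
        omega
      exact_mod_cast this
    rw [lt_div_iff₀ h3] at h2
    have h4 := cnt_prime hA x
    refine h2.le.trans (le_of_eq ?_)
    rw [h4]) hε
  filter_upwards [eventually_ge_atTop (max X₀ 1)] with X hX
  have hX1 : (0 : ℝ) < X := by exact_mod_cast (le_max_right X₀ 1).trans hX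
  have h1 := hX₀ X ((le_max_left _ _).trans hX)
  rw [le_div_iff₀ hX1, g_eq]
  refine h1.trans (le_of_eq ?_)
  rw [cnt_eq]
  rfl

/-- the values of `g` -/
theorem g_value (n : ℕ) :
    g (1 / ((oddPrimes n).map fun p : ℕ => (p : ℝ) - 1).prod) =
      ((oddPrimes n).map fun p : ℕ => 1 - 1 / (p : ℝ)).prod := by
  rw [g_eq]
  have h := gfun_value n
  rw [← ol_prod n (fun p : ℕ => (p : ℝ) - 1), ← ol_prod n (fun p : ℕ => 1 - 1 / (p : ℝ))] at h
  exact h

theorem attained {α : ℝ} (h0 : 0 ≤ α) (h1 : α ≤ 1) :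
    ∃ A : Set ℕ, (∀ a ∈ A, a.Prime) ∧
      Tendsto (fun x : ℕ => cnt A x / (Nat.primeCounting x : ℝ)) atTop (𝓝 α) ∧
      Tendsto (fun X : ℕ => cnt (sums A) X / X) atTop (𝓝 (g α)) := by
  classical
  have hA : ∀ a ∈ exSet α, a.Prime := fun a ha => ha.1
  have ht : Tendsto (fun x : ℕ => cnt (exSet α) x / (Nat.primeCounting x : ℝ)) atTop (𝓝 α) := by
    rw [Metric.tendsto_atTop]
    intro ε hε
    obtain ⟨X₀, hX₀⟩ := exSet_density h0 h1 (show 0 < ε / 2 by positivity)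
    refine ⟨max X₀ 2, fun x hx => ?_⟩
    obtain ⟨h2, h3⟩ := hX₀ x ((le_max_left _ _).trans hx)
    have h4 : 0 < (Nat.primeCounting x : ℝ) := by
      have : 0 < Nat.primeCounting x := by
        have h4 := Nat.monotone_primeCounting ((le_max_right _ _).trans hx : 2 ≤ x)
        have h5 : Nat.primeCounting 2 = 1 := by decide
        omega
      exact_mod_cast this
    have h5 : cnt (exSet α) x =
        (((Finset.range (x + 1)).filter (fun p => p ∈ exSet α)).card : ℝ) := cnt_prime hA x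
    rw [Real.dist_eq, h5]
    have h6 : α - ε / 2 ≤ (((Finset.range (x + 1)).filter (fun p => p ∈ exSet α)).card : ℝ) /
        (Nat.primeCounting x : ℝ) := by rw [le_div_iff₀ h4]; exact h2
    have h7 : (((Finset.range (x + 1)).filter (fun p => p ∈ exSet α)).card : ℝ) /
        (Nat.primeCounting x : ℝ) ≤ α + ε / 2 := by rw [div_le_iff₀ h4]; exact h3
    rw [abs_lt]
    constructor <;> linarith
  refine ⟨exSet α, hA, ht, ?_⟩
  rw [Metric.tendsto_atTop]
  intro ε hε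
  have hlow := lower hA ht.liminf_eq.ge (show 0 < ε / 2 by positivity)
  obtain ⟨N, hN⟩ := eventually_atTop.mp hlow
  obtain ⟨X₀, hX₀⟩ := exSet_sum (α := α) (show 0 < ε / 2 by positivity)
  refine ⟨max (max N X₀) 1, fun X hX => ?_⟩
  have h2 := hN X ((le_max_left _ _).trans ((le_max_left _ _).trans hX))
  have h3 := hX₀ X ((le_max_right _ _).trans ((le_max_left _ _).trans hX))
  have hX1 : (0 : ℝ) < X := by exact_mod_cast (le_max_right _ 1).trans hX
  have h4 : cnt (sums (exSet α)) X / X ≤ g α + ε / 2 := by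
    rw [div_le_iff₀ hX1, g_eq]
    refine le_trans ?_ h3
    rw [cnt_eq]
    refine Nat.cast_le.mpr (Finset.card_le_card fun n hn => ?_)
    rw [Finset.mem_filter] at hn ⊢
    obtain ⟨h5, a, ha, p, hp, _, hap⟩ := hn
    exact ⟨h5, a, ha, p, hp, hap⟩
  rw [Real.dist_eq, abs_lt]
  constructor <;> linarith

theorem cnt_finset {A : Finset ℕ} (hA : ∀ a ∈ A, a.Prime) (x : ℕ) :
    cnt (A : Set ℕ) x = ((A.filter (· ≤ x)).card : ℝ) := by
  classical
  rw [cnt_eq]
  congr 2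
  ext n
  rw [Finset.mem_filter, Finset.mem_filter, Finset.mem_Icc, Finset.mem_coe]
  constructor
  · rintro ⟨⟨_, h1⟩, h2⟩
    exact ⟨h2, h1⟩
  · rintro ⟨h1, h2⟩
    exact ⟨⟨(hA n h1).one_le, h2⟩, h1⟩

theorem missed_eq (m H Y : ℕ) (P : Set ℕ) : missed m H Y P = (Pool.Agent.Lib.SH.Miss m H Y P).card := by
  unfold missed Pool.Agent.Lib.SH.Miss
  congr 1
  ext x
  simp only [Finset.mem_filter]
  refine and_congr_right fun _ => and_congr_right fun _ => ?_
  constructor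
  · rintro h ⟨p, hp, hpp, h1, h2⟩
    exact h p (Finset.mem_Ioc.2 ⟨h1, h2⟩) hpp hp
  · intro h p hp hpp hpA
    rw [Finset.mem_Ioc] at hp
    exact h ⟨p, hpA, hpp, hp.1, hp.2⟩

open Classical in
/-- **One prime from a given set of primes: the exact minimum, from dense to sparse sets.** -/
theorem result :
    (∀ α : ℝ, 0 ≤ α → α ≤ 1 →
      IsLeast {d : ℝ | ∃ A : Set ℕ, (∀ a ∈ A, a.Prime) ∧
        α ≤ liminf (fun x : ℕ => cnt A x / (Nat.primeCounting x : ℝ)) atTop ∧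
        d = liminf (fun X : ℕ => cnt (sums A) X / X) atTop} (g α) ∧
      (∃ A : Set ℕ, (∀ a ∈ A, a.Prime) ∧
        Tendsto (fun x : ℕ => cnt A x / (Nat.primeCounting x : ℝ)) atTop (𝓝 α) ∧
        Tendsto (fun X : ℕ => cnt (sums A) X / X) atTop (𝓝 (g α))) ∧
      ∀ m : ℕ, 1 ≤ m → ∃ κ₀ : ℝ, 0 < κ₀ ∧ ∀ κ ε : ℝ, 0 < κ → κ ≤ κ₀ → 0 < ε →
        ∃ δ c η : ℝ, 0 < δ ∧ δ ≤ 1 ∧ 0 < c ∧ 0 < η ∧ ∃ X₀ : ℕ, ∀ X : ℕ, X₀ ≤ X →
        ∀ P : Set ℕ, (missed m ⌊κ * Real.log X⌋₊ (2 * X) P : ℝ) ≤ η * X →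
        ∀ A : Finset ℕ, (∀ a ∈ A, a.Prime ∧ (a : ℝ) ≤ δ * X) →
          α * (Nat.primeCounting ⌊δ * X⌋₊ : ℝ) ≤ A.card →
          (g α - ε) * X ≤ (((Finset.Icc 1 X).filter fun n => c * X / Real.log X ^ 2 ≤
            ((A.filter fun a => a < 2 * n ∧ (2 * n - a).Prime ∧ 2 * n - a ≠ a ∧
              2 * n - a ∈ P).card : ℝ)).card : ℝ)) ∧
    (∀ ε : ℝ, 0 < ε → ∃ δ : ℝ, 0 < δ ∧ δ ≤ 1 ∧ ∀ K : ℕ, ∃ X₀ : ℕ, ∀ X : ℕ, X₀ ≤ X →
      ∀ α : ℝ, 1 / Real.log X ^ K ≤ α → α ≤ 1 →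
        (∀ A : Finset ℕ, (∀ a ∈ A, a.Prime ∧ (a : ℝ) ≤ δ * X) →
          α * (Nat.primeCounting ⌊δ * X⌋₊ : ℝ) ≤ A.card →
          (1 - ε) * g α * X ≤ (((Finset.Icc 1 X).filter fun n => α * X / Real.log X ^ 6 ≤
            ((A.filter fun a => a < 2 * n ∧ (2 * n - a).Prime ∧ 2 * n - a ≠ a).card : ℝ)).card :
              ℝ)) ∧
        ∃ A : Set ℕ, (∀ a ∈ A, a.Prime) ∧
          (∀ Y : ℕ, √X ≤ Y → Y ≤ 2 * X → α * (Nat.primeCounting Y : ℝ) ≤ cnt A Y) ∧
          cnt (sums A) X ≤ (1 + ε) * g α * X) ∧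
    (∀ n : ℕ, g (1 / ((oddPrimes n).map fun p : ℕ => (p : ℝ) - 1).prod) =
      ((oddPrimes n).map fun p : ℕ => 1 - 1 / (p : ℝ)).prod) ∧
    Continuous g ∧ Monotone g ∧
    Tendsto (fun α : ℝ => g α * Real.log (Real.log (1 / α))) (𝓝[>] 0)
      (𝓝 (2 * Real.exp (-Real.eulerMascheroniConstant))) := by
  refine ⟨fun α h0 h1 => ⟨⟨?_, ?_⟩, attained h0 h1, ?_⟩, ?_, g_value, ?_, ?_, ?_⟩
  · obtain ⟨A, hA, ht, hs⟩ := attained h0 h1
    exact ⟨A, hA, ht.liminf_eq.ge, hs.liminf_eq.symm⟩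
  · rintro d ⟨A, hA, hd, rfl⟩
    refine le_of_forall_pos_sub_le fun ε hε => ?_
    exact le_liminf_of_le (isCobounded_ge fun x => (sum_bdd _ x).2) (lower hA hd hε)
  · intro m hm
    obtain ⟨κ₀, hκ₀, h14⟩ := Pool.Agent.Lib.SH.t14 m hm
    refine ⟨κ₀, hκ₀, fun κ ε hκ0 hκκ hε => ?_⟩
    obtain ⟨δ, c, η, hδ, hδ1, hc, hη, X₀, hX₀⟩ := h14 κ α ε hκ0 hκκ h0 hε
    refine ⟨δ, c, η, hδ, hδ1, hc, hη, X₀, fun X hX P hP A hA hcA => ?_⟩
    rw [missed_eq] at hP
    rw [g_eq]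
    exact hX₀ X hX P hP A hA hcA
  · intro ε hε
    obtain ⟨δ, hδ, hδ1, hlow⟩ := lower_uniform hε
    refine ⟨δ, hδ, hδ1, fun K => ?_⟩
    obtain ⟨X₁, hX₁⟩ := hlow K
    obtain ⟨X₂, hX₂⟩ := upper_uniform K hε
    refine ⟨max X₁ X₂, fun X hX α hα hα1 => ⟨fun A hA hcA => ?_, ?_⟩⟩
    · rw [g_eq]
      exact hX₁ X ((le_max_left _ _).trans hX) α hα hα1 A hA hcA
    · classical
      obtain ⟨A, hA, hAY, hAB⟩ := hX₂ X ((le_max_right _ _).trans hX) α hα hα1
      have hAp : ∀ a ∈ A, a.Prime := fun a ha => (hA a ha).1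
      refine ⟨(A : Set ℕ), fun a ha => hAp a (Finset.mem_coe.mp ha), fun Y h1 h2 => ?_, ?_⟩
      · rw [cnt_finset hAp]
        exact hAY Y h1 h2
      · rw [cnt_eq, g_eq]
        refine hAB _ (Finset.filter_subset _ _) fun n hn => ?_
        obtain ⟨a, ha, p, hp, _, hap⟩ := (Finset.mem_filter.mp hn).2
        exact ⟨a, Finset.mem_coe.mp ha, p, hp, hap⟩
  · rw [g_eq]; exact gfun_continuous
  · rw [g_eq]; exact gfun_mono
  · rw [g_eq]; exact gfun_asymp

end Pool.Agent.Results.MP_61161c_nt.OneDenseSummand
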