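import Pool.Agent.Lib.GU.Mf

/-!
# MP_61161c: almost every even number is the sum of a tiny prime and a number with exactly `k` prime factors, the least one in a given set
-/

set_option autoImplicit false

open Finset

namespace Pool.Agent.Results.MP_61161c_nt.TinyPrimeSummand

/-- the singular series `S(N) = 2 ∏_{p > 2} (1 - 1/(p-1)^2) ∏_{p ∣ N, p > 2} (p-1)/(p-2)` of an even number `N` -/
noncomputable def sing (N : ℕ) : ℝ :=
  2 * (∏' p : ℕ, if p.Prime ∧ 2 < p then 1 - 1 / ((p : ℝ) - 1) ^ 2 else 1) *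
    ∏ p ∈ N.primeFactors.filter (fun p => 2 < p), ((p : ℝ) - 1) / ((p : ℝ) - 2)

/-- number of the primes `p ≤ H`, `p < N`, such that `N - p` has exactly `k` prime factors, counted with multiplicity, the least one
in `S` -/
def tiny (k : ℕ) (S : Finset ℕ) (H N : ℕ) : ℕ :=
  ((range N).filter fun p => p.Prime ∧ p ≤ H ∧ (N - p).primeFactorsList.length = k ∧ (N - p).minFac ∈ S).card

/-- number of the primes `p ≤ H`, `p < N`, such that `N - p` has exactly `k` prime factors, counted with multiplicity -/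
def full (k H N : ℕ) : ℕ :=
  ((range N).filter fun p => p.Prime ∧ p ≤ H ∧ (N - p).primeFactorsList.length = k).card

/-- `S(N) H / (log H log N) D` -/
noncomputable def main (D : ℝ) (H N : ℕ) : ℝ := sing N * H / (Real.log H * Real.log N) * D

/-- the sum `∑_{q ∈ S} 1/q (log (log N / log q))^(k-2) / (k-2)!` -/
noncomputable def dens (k : ℕ) (S : Finset ℕ) (N : ℕ) : ℝ :=
  ∑ q ∈ S, 1 / (q : ℝ) * ((Real.log (Real.log N / Real.log q)) ^ (k - 2) / (Nat.factorial (k - 2) : ℝ))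

open Classical in
/-- the even numbers `N ≤ X` with `|R N - M N| > ε M N` -/
noncomputable def bad (ε : ℝ) (R : ℕ → ℕ) (M : ℕ → ℝ) (X : ℕ) : Finset ℕ :=
  (Icc 1 X).filter fun N => Even N ∧ ε * M N < |(R N : ℝ) - M N|

/-- dyadic decomposition -/
private theorem dyadic (P : ℕ → Prop) [DecidablePred P] (X : ℕ) (T δ : ℝ) (hT : 3 ≤ T) (hδ : 0 ≤ δ)
    (h : ∀ Y : ℕ, T / 2 ≤ Y → Y ≤ X → (((Ioc Y (2 * Y)).filter P).card : ℝ) ≤ δ * Y) :
    ∀ Z : ℕ, Z ≤ X → (((Icc 1 Z).filter P).card : ℝ) ≤ T + 2 * δ * Z := by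
  intro Z
  induction Z using Nat.strong_induction_on with
  | _ Z ih =>
    intro hZ
    have hZ0 : (0 : ℝ) ≤ Z := Nat.cast_nonneg _
    by_cases hc : (Z : ℝ) ≤ T
    · have h1 : ((Icc 1 Z).filter P).card ≤ Z := by
        refine (card_filter_le _ _).trans ?_
        rw [Nat.card_Icc]
        omega
      have h2 : (((Icc 1 Z).filter P).card : ℝ) ≤ Z := by exact_mod_cast h1
      have h3 : 0 ≤ 2 * δ * Z := by positivity
      linarith
    · rw [not_le] at hc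
      have hZ3r : (3 : ℝ) < Z := by linarith
      have hZ3 : 3 < Z := by exact_mod_cast hZ3r
      obtain ⟨W, hW⟩ : ∃ W : ℕ, W = (Z + 1) / 2 := ⟨_, rfl⟩
      have hW1 : W < Z := by omega
      have hW2 : Z ≤ 2 * W := by omega
      have hW3 : 2 * W ≤ Z + 1 := by omega
      have hW2r : (Z : ℝ) ≤ 2 * W := by exact_mod_cast hW2
      have hW3r : 2 * (W : ℝ) ≤ Z + 1 := by exact_mod_cast hW3
      have e1 := ih W hW1 (by omega)
      have e2 := h W (by linarith) (by omega)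
      have e3 : (Icc 1 Z).filter P ⊆ (Icc 1 W).filter P ∪ (Ioc W (2 * W)).filter P := by
        intro n hn
        rw [mem_filter, mem_Icc] at hn
        rw [mem_union, mem_filter, mem_filter, mem_Icc, mem_Ioc]
        by_cases hnW : n ≤ W
        · exact Or.inl ⟨⟨hn.1.1, hnW⟩, hn.2⟩
        · exact Or.inr ⟨⟨by omega, by omega⟩, hn.2⟩
      have e4 : (((Icc 1 Z).filter P).card : ℝ) ≤ ((Icc 1 W).filter P).card + ((Ioc W (2 * W)).filter P).card := by
        exact_mod_cast (card_le_card e3).trans (card_union_le _ _)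
      have e5 : 3 * (W : ℝ) ≤ 2 * Z := by linarith
      have e6 : δ * (3 * (W : ℝ)) ≤ δ * (2 * Z) := mul_le_mul_of_nonneg_left e5 hδ
      linarith

private theorem ev (A B C n : ℕ) : ∃ X0 : ℕ, ∀ X : ℕ, X0 ≤ X → (n : ℝ) ≤ Real.sqrt X ∧ 4 ≤ Real.sqrt X ∧ 2 ^ (A + B + 4) + 8 ≤ Real.log X ∧
    2 * (Real.log X) ^ (A + C + 2) ≤ Real.sqrt X := by
  have hlog : ∀ᶠ x : ℝ in Filter.atTop, (Real.log x) ^ ((A + C + 2 : ℕ) : ℝ) ≤ (1 / 2) * x ^ (1 / 2 : ℝ) := by
    have h1 := (isLittleO_log_rpow_rpow_atTop (s := 1 / 2) ((A + C + 2 : ℕ) : ℝ) (by norm_num)).bound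
      (c := 1 / 2) (by norm_num)
    filter_upwards [h1, Filter.eventually_ge_atTop (1 : ℝ)] with x hx hx1
    rwa [Real.norm_of_nonneg (Real.rpow_nonneg (Real.log_nonneg hx1) _), Real.norm_of_nonneg (by positivity)] at hx
  have hl4 : ∀ᶠ x : ℝ in Filter.atTop, (2 : ℝ) ^ (A + B + 4) + 8 ≤ Real.log x :=
    Real.tendsto_log_atTop.eventually (Filter.eventually_ge_atTop _)
  obtain ⟨x1, hx1⟩ := Filter.eventually_atTop.1 ((hlog.and hl4).and (Filter.eventually_ge_atTop (max ((n : ℝ) ^ 2) 16)))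
  refine ⟨⌈x1⌉₊, fun X hX => ?_⟩
  have hX' : x1 ≤ X := (Nat.le_ceil _).trans (by exact_mod_cast hX)
  obtain ⟨⟨h1, h2⟩, h3⟩ := hx1 X hX'
  rw [Real.rpow_natCast, ← Real.sqrt_eq_rpow] at h1
  refine ⟨?_, ?_, h2, by linarith⟩
  · exact Real.le_sqrt_of_sq_le ((le_max_left _ _).trans h3)
  · refine Real.le_sqrt_of_sq_le ?_
    have := (le_max_right ((n : ℝ) ^ 2) 16).trans h3
    linarith

/-- the dyadic step -/
private theorem scale (A B C n : ℕ) : ∃ X0 : ℕ, ∀ X H : ℕ, X0 ≤ X → H * (Real.log X) ^ (A + C + 2) ≤ Real.sqrt X →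
    1 ≤ X ∧ 1 ≤ Real.log X ∧ (2 : ℝ) ^ (B + 1) ≤ Real.log X ∧ ∀ (ε : ℝ) (R : ℕ → ℕ) (M : ℕ → ℝ), (∀ Y : ℕ, n ≤ Y → Y ≤ X → Real.sqrt X ≤ Y → Real.log X / 2 ≤ Real.log Y →
      Real.log Y ≤ Real.log X → 0 < Real.log Y → 2 * (H : ℝ) ≤ Real.sqrt Y →
        (((Ioc Y (2 * Y)).filter fun N => Even N ∧ ε * M N < |(R N : ℝ) - M N|).card : ℝ) ≤ Y / (Real.log Y) ^ (A + 1)) →
    ((bad ε R M X).card : ℝ) ≤ X / (Real.log X) ^ A := by
  classical
  obtain ⟨X2, hX2⟩ := ev A B C n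
  refine ⟨max X2 1, fun X H hX hH2 => ?_⟩
  obtain ⟨g1, g2, g3, g4⟩ := hX2 X ((le_max_left _ _).trans hX)
  have hXn : 1 ≤ X := (le_max_right _ _).trans hX
  obtain ⟨l, hl⟩ : ∃ l : ℝ, l = Real.log X := ⟨_, rfl⟩
  obtain ⟨r, hr⟩ : ∃ r : ℝ, r = Real.sqrt X := ⟨_, rfl⟩
  have hX0 : (0 : ℝ) < X := by exact_mod_cast hXn
  have hXone : (1 : ℝ) ≤ X := by exact_mod_cast hXn
  have hrr : r * r = X := by rw [hr]; exact Real.mul_self_sqrt hX0.le
  rw [← hl] at g3 g4 hH2 ⊢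
  rw [← hr] at g1 g2 g4 hH2 ⊢
  have p2 : (0 : ℝ) < 2 ^ (A + B + 4) := by positivity
  have hl1 : 1 < l := by linarith
  have hl0 : 0 < l := by linarith
  have hlr : Real.log r = l / 2 := by
    rw [hr, Real.log_sqrt hX0.le, hl]
  have hB : (2 : ℝ) ^ (B + 1) ≤ l := by
    have : (2 : ℝ) ^ (B + 1) ≤ 2 ^ (A + B + 4) := pow_le_pow_right₀ (by norm_num) (by omega)
    linarith
  refine ⟨hXn, hl1.le, hB, fun ε R M hR => ?_⟩
  have hlA : (0 : ℝ) < l ^ (A + 1) := by positivity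
  have hlA1 : (1 : ℝ) ≤ l ^ (A + 1) := one_le_pow₀ hl1.le
  have hlAC : l ^ (A + 1) ≤ l ^ (A + C + 2) := pow_le_pow_right₀ hl1.le (by omega)
  have hTr : 2 * r ≤ X / l ^ (A + 1) := by
    rw [le_div_iff₀ hlA, ← hrr]
    have : 2 * l ^ (A + 1) ≤ r := by linarith
    nlinarith
  -- the estimate at one dyadic scale
  have hkey : ∀ Y : ℕ, X / l ^ (A + 1) / 2 ≤ Y → Y ≤ X →
      (((Ioc Y (2 * Y)).filter fun N => Even N ∧ ε * M N < |(R N : ℝ) - M N|).card : ℝ) ≤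
        2 ^ (A + 1) / l ^ (A + 1) * Y := by
    intro Y hY1 hY2
    have hYr : r ≤ Y := by linarith
    have hY2r : (Y : ℝ) ≤ X := by exact_mod_cast hY2
    have hY0 : (0 : ℝ) < Y := by linarith
    have hlY1 : l / 2 ≤ Real.log Y := by
      rw [← hlr]
      exact Real.log_le_log (by linarith) hYr
    have hlY2 : Real.log Y ≤ l := by
      rw [hl]
      exact Real.log_le_log hY0 hY2r
    have hlY0 : 0 < Real.log Y := by linarith
    have hX1Y : n ≤ Y := by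
      have : (n : ℝ) ≤ Y := g1.trans hYr
      exact_mod_cast this
    have c4 : 2 * (H : ℝ) ≤ Real.sqrt Y := by
      refine Real.le_sqrt_of_sq_le ?_
      have e1 : ((H : ℝ) * l ^ (A + C + 2)) * ((H : ℝ) * l ^ (A + C + 2)) ≤ r * r :=
        mul_le_mul hH2 hH2 (by positivity) (by linarith)
      have e2 : X / l ^ (A + 1) ≤ 2 * (Y : ℝ) := by linarith
      rw [div_le_iff₀ hlA, ← hrr] at e2
      have e3 : l ^ (A + 1) * l ≤ l ^ (A + C + 2) := by
        rw [← pow_succ]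
        exact pow_le_pow_right₀ hl1.le (by omega)
      have e4 : (8 : ℝ) ≤ l := by linarith
      have e5 : 8 * l ^ (A + 1) ≤ l ^ (A + C + 2) * l ^ (A + C + 2) := by
        have : (1 : ℝ) ≤ l ^ (A + C + 2) := one_le_pow₀ hl1.le
        nlinarith
      have e6 : (H : ℝ) ^ 2 * (8 * l ^ (A + 1)) ≤ 2 * Y * l ^ (A + 1) := by
        calc (H : ℝ) ^ 2 * (8 * l ^ (A + 1)) ≤ (H : ℝ) ^ 2 * (l ^ (A + C + 2) * l ^ (A + C + 2)) :=
              mul_le_mul_of_nonneg_left e5 (by positivity)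
          _ = ((H : ℝ) * l ^ (A + C + 2)) * ((H : ℝ) * l ^ (A + C + 2)) := by ring
          _ ≤ r * r := e1
          _ ≤ 2 * Y * l ^ (A + 1) := e2
      have e7 : ((H : ℝ) ^ 2 * 8) * l ^ (A + 1) ≤ (2 * Y) * l ^ (A + 1) := by linarith
      have e8 := le_of_mul_le_mul_right e7 hlA
      nlinarith
    have h2 := hR Y hX1Y hY2 hYr hlY1 hlY2 hlY0 c4
    have hcv : (Y : ℝ) / (Real.log Y) ^ (A + 1) ≤ 2 ^ (A + 1) / l ^ (A + 1) * Y := by
      rw [div_mul_eq_mul_div, div_le_div_iff₀ (by positivity) hlA]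
      have e1 : l ^ (A + 1) ≤ 2 ^ (A + 1) * (Real.log Y) ^ (A + 1) := by
        rw [← mul_pow]
        exact pow_le_pow_left₀ hl0.le (by linarith) _
      calc (Y : ℝ) * l ^ (A + 1) ≤ Y * (2 ^ (A + 1) * (Real.log Y) ^ (A + 1)) := mul_le_mul_of_nonneg_left e1 hY0.le
        _ = 2 ^ (A + 1) * Y * (Real.log Y) ^ (A + 1) := by ring
    exact h2.trans hcv
  have hsumA : (X : ℝ) / l ^ (A + 1) + 2 * (2 ^ (A + 1) / l ^ (A + 1)) * X ≤ X / l ^ A := by
    rw [pow_succ l A]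
    have hlA0 : 0 < l ^ A := by positivity
    have e1 : (X : ℝ) / (l ^ A * l) + 2 * (2 ^ (A + 1) / (l ^ A * l)) * X = X * (1 + 2 ^ (A + 2)) / (l ^ A * l) := by
      field_simp
      ring
    rw [e1, div_le_div_iff₀ (by positivity) hlA0]
    have e2 : (1 : ℝ) + 2 ^ (A + 2) ≤ l := by
      have : (2 : ℝ) ^ (A + 2) ≤ 2 ^ (A + B + 4) := pow_le_pow_right₀ (by norm_num) (by omega)
      linarith
    have e3 : (X : ℝ) * (1 + 2 ^ (A + 2)) ≤ X * l := mul_le_mul_of_nonneg_left e2 hX0.le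
    calc (X : ℝ) * (1 + 2 ^ (A + 2)) * l ^ A ≤ X * l * l ^ A := mul_le_mul_of_nonneg_right e3 hlA0.le
      _ = X * (l ^ A * l) := by ring
  have hmain := dyadic (fun N => Even N ∧ ε * M N < |(R N : ℝ) - M N|) X (X / l ^ (A + 1))
    (2 ^ (A + 1) / l ^ (A + 1)) (by linarith) (by positivity) hkey X le_rfl
  refine le_trans (le_of_eq ?_) (hmain.trans hsumA)
  unfold bad
  congr!

/-- **Theorem.** For `k ≥ 2` and `A`, `B` there are `c₀`, `C` such that for every `ε > 0` there are `η` in `(0, 1)` and `X₀` with the following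
properties for all `X ≥ X₀` and all `H ≤ √X / (log X)^C`, for all but at most `X / (log X)^A` of the even `N ≤ X`.
(1) For all real `w' ≤ X^η` with `w' (log X)^C ≤ H` and EVERY set `S` of primes in `[(log X)^c₀, w']` with `∑_{q ∈ S} 1/q ≥ (log X)^(-B)` the
number of the primes `p ≤ H` such that `N - p` has exactly `k` prime factors, the least one in `S`, is
`S(N) H / (log H log N) ∑_{q ∈ S} 1/q (log (log N / log q))^(k-2) / (k-2)!` up to a factor between `1 - ε` and `1 + ε` (the exceptional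
`N` may depend on `S`, `w'` and `H`).
(2) If `H ≥ exp ((log X)^(1-η))`, the number of ALL primes `p ≤ H` such that `N - p` has exactly `k` prime factors is
`S(N) H / (log H log N) (log log N)^(k-1) / (k-1)!` up to such a factor. -/
theorem result : ∀ k A B : ℕ, 2 ≤ k → ∃ c₀ C : ℕ, ∀ ε : ℝ, 0 < ε → ∃ η : ℝ, 0 < η ∧ η < 1 ∧ ∃ X₀ : ℕ, ∀ X H : ℕ, X₀ ≤ X →
    H * (Real.log X) ^ C ≤ Real.sqrt X →
    (∀ (w' : ℝ) (S : Finset ℕ), w' ≤ (X : ℝ) ^ η → w' * (Real.log X) ^ C ≤ H →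
      (∀ q ∈ S, q.Prime ∧ (Real.log X) ^ c₀ ≤ q ∧ (q : ℝ) ≤ w') → 1 / (Real.log X) ^ B ≤ ∑ q ∈ S, 1 / (q : ℝ) →
        ((bad ε (tiny k S H) (fun N => main (dens k S N) H N) X).card : ℝ) ≤ X / (Real.log X) ^ A) ∧
    (Real.exp ((Real.log X) ^ (1 - η)) ≤ H →
      ((bad ε (full k H) (fun N => main ((Real.log (Real.log N)) ^ (k - 1) / (Nat.factorial (k - 1) : ℝ)) H N) X).card : ℝ) ≤
        X / (Real.log X) ^ A) := by
  classical
  intro k A B hk
  have hS' : ∀ N : ℕ, Even N → Pool.Agent.Lib.G3.SS N = sing N := by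
    intro N hN
    unfold Pool.Agent.Lib.G3.SS Pool.Agent.Lib.G3.C2 Pool.Agent.Lib.G3.tc sing
    rw [if_pos hN]
  obtain ⟨c₀, C, h1⟩ := Pool.Agent.Lib.GU.g9y k (A + 1) (B + 1) hk
  refine ⟨c₀, A + C + 2, fun ε hε => ?_⟩
  obtain ⟨η1, hη1, X1, h1⟩ := h1 ε hε
  obtain ⟨η2, hη2, hη2', X3, h3⟩ := Pool.Agent.Lib.GU.g9f k (A + 1) hk ε hε
  obtain ⟨X2, hX2⟩ := scale A B C (max X1 X3)
  obtain ⟨η, hη⟩ : ∃ η : ℝ, η = min (min (η1 / 2) (1 / 2)) η2 := ⟨_, rfl⟩
  have hηa : η ≤ η1 / 2 := by rw [hη]; exact (min_le_left _ _).trans (min_le_left _ _)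
  have hηb : η ≤ η2 := by rw [hη]; exact min_le_right _ _
  have hη0 : 0 < η := by rw [hη]; exact lt_min (lt_min (by positivity) (by norm_num)) hη2
  have hη1' : η < 1 := lt_of_le_of_lt hηb hη2'
  refine ⟨η, hη0, hη1', X2, fun X H hX hH2 => ?_⟩
  obtain ⟨hXn, hl1, hlB, hsc⟩ := hX2 X H hX hH2
  obtain ⟨l, hl⟩ : ∃ l : ℝ, l = Real.log X := ⟨_, rfl⟩
  obtain ⟨r, hr⟩ : ∃ r : ℝ, r = Real.sqrt X := ⟨_, rfl⟩
  have hX0 : (0 : ℝ) < X := by exact_mod_cast hXn
  have hXone : (1 : ℝ) ≤ X := by exact_mod_cast hXn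
  rw [← hl] at hl1 hlB hsc ⊢
  rw [← hr] at hsc
  have hl0 : 0 < l := by linarith
  have hHYn : ∀ Y : ℕ, 0 < Real.log Y → 2 * (H : ℝ) ≤ Real.sqrt Y → H ≤ Y := by
    intro Y hY0 hY
    have hY1 : (1 : ℝ) ≤ Y := by
      by_contra h
      rw [not_le] at h
      have : Y = 0 := by
        have : Y < 1 := by exact_mod_cast h
        omega
      rw [this] at hY0
      simp at hY0
    have hHY : (H : ℝ) ≤ Y := by
      have e1 : Real.sqrt Y ≤ Y := by
        rw [Real.sqrt_le_left (by linarith)]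
        nlinarith
      have e2 : (0 : ℝ) ≤ H := Nat.cast_nonneg _
      linarith
    exact_mod_cast hHY
  refine ⟨fun w' S hw' hH1 hSq hsum => ?_, fun hH1 => ?_⟩
  · refine hsc ε _ _ fun Y hnY hY2 hYr hlY1 hlY2 hlY0 c4 => ?_
    have hX1Y : X1 ≤ Y := (le_max_left _ _).trans hnY
    have hne : S.Nonempty := by
      by_contra h
      rw [not_nonempty_iff_eq_empty] at h
      rw [h, sum_empty] at hsum
      have : 0 < 1 / l ^ B := by positivity
      linarith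
    have hw'1 : 1 ≤ w' := by
      obtain ⟨q, hq⟩ := hne
      obtain ⟨a1, a2, a3⟩ := hSq q hq
      have : (1 : ℝ) ≤ q := by exact_mod_cast a1.one_lt.le
      linarith
    have hr0 : 0 ≤ r := by rw [hr]; exact Real.sqrt_nonneg _
    have c1 : ∀ q ∈ S, q.Prime ∧ (Real.log Y) ^ c₀ ≤ q ∧ (q : ℝ) ≤ w' := fun q hq =>
      ⟨(hSq q hq).1, (pow_le_pow_left₀ hlY0.le hlY2 _).trans (hSq q hq).2.1, (hSq q hq).2.2⟩
    have c2 : w' ≤ (Y : ℝ) ^ η1 := by
      calc w' ≤ (X : ℝ) ^ η := hw'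
        _ ≤ (X : ℝ) ^ (η1 / 2) := Real.rpow_le_rpow_of_exponent_le hXone hηa
        _ = r ^ η1 := by
            rw [hr, Real.sqrt_eq_rpow, ← Real.rpow_mul hX0.le]
            congr 1
            ring
        _ ≤ (Y : ℝ) ^ η1 := Real.rpow_le_rpow hr0 hYr hη1.le
    have c3 : w' * (Real.log Y) ^ C ≤ H := by
      refine le_trans (mul_le_mul_of_nonneg_left ?_ (by linarith)) hH1
      calc (Real.log Y) ^ C ≤ l ^ C := pow_le_pow_left₀ hlY0.le hlY2 _
        _ ≤ l ^ (A + C + 2) := pow_le_pow_right₀ hl1 (by omega)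
    have c5 : 1 / (Real.log Y) ^ (B + 1) ≤ ∑ q ∈ S, 1 / (q : ℝ) := by
      refine le_trans ?_ hsum
      rw [div_le_div_iff₀ (by positivity) (by positivity), one_mul, one_mul]
      have e2 : l ^ (B + 1) ≤ 2 ^ (B + 1) * (Real.log Y) ^ (B + 1) := by
        rw [← mul_pow]
        exact pow_le_pow_left₀ hl0.le (by linarith) _
      have e3 : 2 ^ (B + 1) * (Real.log Y) ^ (B + 1) ≤ l * (Real.log Y) ^ (B + 1) :=
        mul_le_mul_of_nonneg_right hlB (by positivity)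
      have e4 : l ^ B * l ≤ (Real.log Y) ^ (B + 1) * l := by
        rw [← pow_succ]
        linarith
      exact le_of_mul_le_mul_right e4 hl0
    have h2 := h1 Y H w' S hX1Y c1 c2 c3 c4 c5
    have hHY := hHYn Y hlY0 c4
    have hTC : ∀ N : ℕ, Y < N → tiny k S H N = Pool.Agent.Lib.G9.CZ k S H N := by
      intro N hN
      unfold tiny Pool.Agent.Lib.G9.CZ
      congr 1
      ext p
      rw [mem_filter, mem_filter, mem_range, mem_Icc]
      constructor
      · rintro ⟨a1, a2, a3, a4⟩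
        exact ⟨⟨a2.one_lt.le, a3⟩, a2, a4⟩
      · rintro ⟨⟨a1, a3⟩, a2, a4⟩
        exact ⟨by omega, a2, a3, a4⟩
    have hM : ∀ N : ℕ, Even N → main (dens k S N) H N = Pool.Agent.Lib.G9.MZ k S H N := by
      intro N hN
      unfold main dens Pool.Agent.Lib.G9.MZ Pool.Agent.Lib.G8.mL
      rw [hS' N hN, sum_div, ← mul_assoc, mul_div_assoc]
      congr 1
      refine sum_congr rfl fun q _ => ?_
      rw [mul_div_assoc]
    refine le_trans ?_ h2
    have hsub : ((Ioc Y (2 * Y)).filter fun N => Even N ∧ ε * main (dens k S N) H N < |(tiny k S H N : ℝ) - main (dens k S N) H N|) ⊆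
        ((Ioc Y (2 * Y)).filter fun N => Even N ∧ ε * Pool.Agent.Lib.G9.MZ k S H N <
          |(Pool.Agent.Lib.G9.CZ k S H N : ℝ) - Pool.Agent.Lib.G9.MZ k S H N|) := by
      intro N hN
      rw [mem_filter] at hN ⊢
      obtain ⟨h4, h5, h6⟩ := hN
      refine ⟨h4, h5, ?_⟩
      rw [← hTC N (mem_Ioc.1 h4).1, ← hM N h5]
      exact h6
    exact_mod_cast card_le_card hsub
  · refine hsc ε _ _ fun Y hnY hY2 hYr hlY1 hlY2 hlY0 c4 => ?_
    have hX3Y : X3 ≤ Y := (le_max_right _ _).trans hnY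
    have hHY := hHYn Y hlY0 c4
    have c1 : Real.exp ((Real.log Y) ^ (1 - η2)) ≤ H := by
      refine le_trans (Real.exp_le_exp.2 ?_) hH1
      calc (Real.log Y) ^ (1 - η2) ≤ l ^ (1 - η2) := Real.rpow_le_rpow hlY0.le hlY2 (by linarith)
        _ ≤ l ^ (1 - η) := Real.rpow_le_rpow_of_exponent_le hl1 (by linarith)
    have h2 := h3 Y H hX3Y c1 c4
    have hTC : ∀ N : ℕ, Y < N → full k H N = Pool.Agent.Lib.GU.CF k H N := by
      intro N hN
      unfold full Pool.Agent.Lib.GU.CF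
      congr 1
      ext p
      rw [mem_filter, mem_filter, mem_range, mem_Icc]
      constructor
      · rintro ⟨a1, a2, a3, a4⟩
        exact ⟨⟨a2.one_lt.le, a3⟩, a2, a4⟩
      · rintro ⟨⟨a1, a3⟩, a2, a4⟩
        exact ⟨by omega, a2, a3, a4⟩
    have hM : ∀ N : ℕ, Even N → main ((Real.log (Real.log N)) ^ (k - 1) / (Nat.factorial (k - 1) : ℝ)) H N = Pool.Agent.Lib.GU.MF k H N := by
      intro N hN
      unfold main Pool.Agent.Lib.GU.MF
      rw [hS' N hN, mul_div_assoc, mul_assoc]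
    refine le_trans ?_ h2
    have hsub : ((Ioc Y (2 * Y)).filter fun N : ℕ => Even N ∧
        ε * main ((Real.log (Real.log N)) ^ (k - 1) / (Nat.factorial (k - 1) : ℝ)) H N <
          |(full k H N : ℝ) - main ((Real.log (Real.log N)) ^ (k - 1) / (Nat.factorial (k - 1) : ℝ)) H N|) ⊆
        ((Ioc Y (2 * Y)).filter fun N : ℕ => Even N ∧ ε * Pool.Agent.Lib.GU.MF k H N <
          |(Pool.Agent.Lib.GU.CF k H N : ℝ) - Pool.Agent.Lib.GU.MF k H N|) := by
      intro N hN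
      rw [mem_filter] at hN ⊢
      obtain ⟨h4, h5, h6⟩ := hN
      refine ⟨h4, h5, ?_⟩
      rw [← hTC N (mem_Ioc.1 h4).1, ← hM N h5]
      exact h6
    exact_mod_cast card_le_card hsub

end Pool.Agent.Results.MP_61161c_nt.TinyPrimeSummand
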